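import Pool.Agent.Lib.H2S.AFin
import Pool.Agent.Lib.H2S.U5

/-!
# The dihedral case of Serre's modularity conjecture over imaginary quadratic fields of class number one

`K` is an imaginary quadratic field of class number one, `N` a nonzero ideal of `𝓞 K`, `p > 3` a prime, `k` an
algebraically closed field of characteristic `p`, `L / K` a quadratic extension, `τ` the generator of `Gal (L / K)`, `m` an
ideal of `𝓞 L` prime to `p` with `N(m) disc(L/K) = N`, `r₁, r₂ : 𝓞 L → k` ring homomorphisms, and `χ` a character of the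
group of ideals of `𝓞 L` prime to `m p`, with values in `k`.

Dictionary (class field theory, not used in the proofs): `χ` is a continuous character of `Gal (Kᵃ / L)` which is
unramified outside `m p`, of conductor dividing `m` away from `p`; the condition `χ((x)) = r₁(x) r₂(x)` says how inertia
above `p` acts.  When `E[p]` is isomorphic to `Ind χ` over `k` and finite flat at the primes above `p`, the condition holds
for some `r₁, r₂` (Raynaud) and `L / K` is unramified above `p`; when moreover `m` is the conductor of `χ` away from `p`,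
`N = N(m) disc(L/K)` is the Serre conductor of `E[p]`.

A class in `H¹(Γ₀(N) \ H₃, k)` is a homomorphism `Γ₀(N) → k`, since the orders of the finite subgroups of `Γ₀(N)` are
prime to `p > 3`.
-/

set_option autoImplicit false
namespace Pool.Agent.Results.MP_3099cf_nt.DihedralCase
open NumberField Pool.Agent.H2S

section
variable {K : Type*} [Field K] [NumberField K]

/-- `Γ₀(N)` in `GL₂ (𝓞 K)`. -/
def Gamma0 (N : Ideal (𝓞 K)) : Subgroup (GL (Fin 2) (𝓞 K)) where
  carrier := {g | (g : Matrix (Fin 2) (Fin 2) (𝓞 K)) 1 0 ∈ N}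
  one_mem' := by
    change (1 : Matrix (Fin 2) (Fin 2) (𝓞 K)) 1 0 ∈ N
    simp
  mul_mem' := by
    intro g h hg hh
    change ((g : Matrix (Fin 2) (Fin 2) (𝓞 K)) * (h : Matrix (Fin 2) (Fin 2) (𝓞 K))) 1 0 ∈ N
    rw [Matrix.mul_apply, Fin.sum_univ_two]
    exact N.add_mem (N.mul_mem_right _ hg) (N.mul_mem_left _ hh)
  inv_mem' := by
    intro g hg
    change ((g⁻¹ : GL (Fin 2) (𝓞 K)) : Matrix (Fin 2) (Fin 2) (𝓞 K)) 1 0 ∈ N
    rw [Matrix.coe_units_inv, Matrix.inv_def, Matrix.adjugate_fin_two]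
    simp only [Matrix.smul_apply, Matrix.of_apply, Matrix.cons_val', Matrix.cons_val_one, Matrix.cons_val_zero,
      smul_eq_mul]
    exact N.mul_mem_left _ (N.neg_mem hg)

/-- The double coset `Γ₀(N) diag(π, 1) Γ₀(N)`. -/
def DoubleCoset (N : Ideal (𝓞 K)) (π : 𝓞 K) : Set (Matrix (Fin 2) (Fin 2) (𝓞 K)) :=
  {x | ∃ g ∈ Gamma0 N, ∃ h ∈ Gamma0 N,
    x = (g : Matrix (Fin 2) (Fin 2) (𝓞 K)) * !![π, 0; 0, 1] * (h : Matrix (Fin 2) (Fin 2) (𝓞 K))}

/-- `T_π c = a c` for a homomorphism `c : Γ₀(N) → k`, that is a class in `H¹(Γ₀(N), k)`: for a complete system `δ i` of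
representatives of `Γ₀(N) \ Γ₀(N) diag(π, 1) Γ₀(N)` and every `γ ∈ Γ₀(N)` one has `δ i γ = g i δ (t i)` with
`g i ∈ Γ₀(N)`, and `∑ c (g i) = a c γ`. -/
def HeckeEigen {k : Type*} [Field k] (N : Ideal (𝓞 K)) (π : 𝓞 K) (c : Gamma0 N →* Multiplicative k) (a : k) : Prop :=
  ∃ (r : ℕ) (δ : Fin r → Matrix (Fin 2) (Fin 2) (𝓞 K)), (∀ i, δ i ∈ DoubleCoset N π) ∧
    (∀ x ∈ DoubleCoset N π, ∃! i, ∃ g ∈ Gamma0 N, x = (g : Matrix (Fin 2) (Fin 2) (𝓞 K)) * δ i) ∧
    ∀ γ : Gamma0 N, ∃ (t : Fin r → Fin r) (g : Fin r → Gamma0 N),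
      (∀ i, δ i * ((γ : GL (Fin 2) (𝓞 K)) : Matrix (Fin 2) (Fin 2) (𝓞 K)) =
        ((g i : GL (Fin 2) (𝓞 K)) : Matrix (Fin 2) (Fin 2) (𝓞 K)) * δ (t i)) ∧
      ∑ i, (c (g i)).toAdd = a * (c γ).toAdd

/-- `π` is a prime of `𝓞 K` not dividing `p N`. -/
def Good (N : Ideal (𝓞 K)) (p : ℕ) (π : 𝓞 K) : Prop :=
  Prime π ∧ ¬ π ∣ (p : 𝓞 K) ∧ ¬ N ≤ Ideal.span {π}

/-- `a_π(E) = N(π) + 1 - #E(𝓞 K / π)` for a Weierstrass curve over `𝓞 K`. -/
noncomputable def aE (E : WeierstrassCurve (𝓞 K)) (π : 𝓞 K) : ℤ :=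
  (Ideal.absNorm (Ideal.span {π}) : ℤ) + 1 -
    (Nat.card (E.map (Ideal.Quotient.mk (Ideal.span {π}))).toAffine.Point : ℤ)

end

section
variable {K L : Type*} [Field K] [NumberField K] [Field L] [NumberField L] [Algebra K L]

/-- `χ` is a character (with values in `k`) of the ideals of `𝓞 L` prime to `m p`, with `N(m) disc(L/K) = N`, `m` prime
to `p`, `χ((x)) = r₁(x) r₂(x)` for the `x` prime to `p` which are `1` modulo `m` (`m` is a modulus of `χ` away
from `p`, and at `p` the weights of `χ` are `0` and `1`, as for a finite flat `Ind χ`); and the determinant of `Ind χ` is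
the cyclotomic character modulo `p`: for `π` not dividing `p N` the product of `χ((π))` and of the character of
`L / K` at `π` is `N(π)`. -/
structure IsFlatCharacter (N : Ideal (𝓞 K)) (p : ℕ) {k : Type*} [Field k] (r₁ r₂ : 𝓞 L →+* k) (m : Ideal (𝓞 L))
    (χ : Ideal (𝓞 L) →*₀ k) : Prop where
  level : Ideal.relNorm (𝓞 K) (m * differentIdeal (𝓞 K) (𝓞 L)) = N
  coprime : IsCoprime m (Ideal.span {(p : 𝓞 L)})
  support : ∀ a, a ≠ ⊥ → (χ a ≠ 0 ↔ IsCoprime a (m * Ideal.span {(p : 𝓞 L)}))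
  principal : ∀ x : 𝓞 L, x - 1 ∈ m → IsCoprime (Ideal.span {x}) (Ideal.span {(p : 𝓞 L)}) →
    χ (Ideal.span {x}) = r₁ x * r₂ x
  det : ∀ π : 𝓞 K, Good N p π → χ (Ideal.span {algebraMap (𝓞 K) (𝓞 L) π}) =
    (open Classical in if (Ideal.span {algebraMap (𝓞 K) (𝓞 L) π}).IsPrime then -1 else 1) *
      (Ideal.absNorm (Ideal.span {π}) : k)

/-- `L` is a CM field with complex conjugation `cc`, and `r₂ = r₁ ∘ cc ∘ τ`. -/
def IsCMType (τ : L ≃ₐ[K] L) {k : Type*} [Field k] (r₁ r₂ : 𝓞 L →+* k) : Prop :=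
  ∃ cc : L ≃+* L, (∀ (φ : L →+* ℂ) (x : L), φ (cc x) = (starRingEnd ℂ) (φ x)) ∧
    ∀ x y : 𝓞 L, (y : L) = cc (τ (x : L)) → r₂ x = r₁ y

/-- The trace of `Ind χ` at the Frobenius of `π`: the sum of `χ(w)` over the primes `w` of relative norm `(π)`
(two if `π` splits in `L`, none if `π` is inert). -/
noncomputable def traceInd {k : Type*} [Field k] (χ : Ideal (𝓞 L) →*₀ k) (π : 𝓞 K) : k :=
  ∑ᶠ a ∈ {a : Ideal (𝓞 L) | Ideal.relNorm (𝓞 K) a = Ideal.span {π}}, χ a

end

/-- The case of CM type. -/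
theorem cmcase (K : Type) [Field K] [NumberField K] [IsTotallyComplex K] [IsPrincipalIdealRing (𝓞 K)]
    (hK : Module.finrank ℚ K = 2) (N : Ideal (𝓞 K)) (hN : N ≠ ⊥) (p : ℕ) (hp : p.Prime) (hp3 : 3 < p)
    (k L : Type) [Field k] [CharP k p] [IsAlgClosed k] [Field L] [NumberField L] [Algebra K L]
    (hL : Module.finrank K L = 2) (τ : L ≃ₐ[K] L) (hτ : τ ≠ 1) (m : Ideal (𝓞 L)) (r₁ r₂ : 𝓞 L →+* k)
    (χ : Ideal (𝓞 L) →*₀ k) (hχ : IsFlatCharacter N p r₁ r₂ m χ) (hcm : IsCMType τ r₁ r₂) :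
    ∃ c : Gamma0 N →* Multiplicative k, c ≠ 1 ∧ ∀ π : 𝓞 K, Good N p π → HeckeEigen N π c (traceInd χ π) := by
  obtain ⟨hlev, hmp, hsupp, hprin, hdet⟩ := hχ
  subst hlev
  obtain ⟨cc, hcc, hr⟩ := hcm
  let F : Fld K L :=
    { deg := hK
      cplx := inferInstance
      pid := inferInstance
      deg2 := hL
      s := Classical.choice (inferInstance : Nonempty (L →+* ℂ))
      τ := τ
      τne := hτ
      cc := cc
      cj := hcc }
  have hg : ∀ π : 𝓞 K, GoodPrime m p π ↔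
      Good (Ideal.relNorm (𝓞 K) (m * differentIdeal (𝓞 K) (𝓞 L))) p π := fun π =>
    ⟨fun h => ⟨h.prime, h.p, h.lev⟩, fun h => ⟨h.1, h.2.1, h.2.2⟩⟩
  let X : ModChi F m p k :=
    { pprime := hp
      p3 := hp3
      char := inferInstance
      closed := inferInstance
      mne := (U3_bound (K := K) hL hN).1
      mp := hmp
      r := r₁
      χ := χ
      ne := hsupp
      h1 := fun x hx hxp => by
        have h1 : IsIntegral ℤ (F.τ (x : L)) := by
          have := x.isIntegral_coe.map (F.τ : L →ₐ[K] L).toRingHom.toIntAlgHom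
          exact this
        have h2 : IsIntegral ℤ (F.cc (F.τ (x : L))) := by
          have := h1.map (F.cc : L →+* L).toIntAlgHom
          exact this
        rw [hprin x hx hxp, hr x ⟨F.cc (F.τ (x : L)), h2⟩ rfl, ← map_mul]
        rfl
      h2 := fun π hπ => hdet π ((hg π).1 hπ) }
  obtain ⟨c, hc, ⟨g, hgne⟩, hE⟩ := modchi_main X
  have hc1 : c 1 = 0 := by
    have := hc 1 1
    rw [mul_one] at this
    exact left_eq_add.mp this
  let c' : Gamma0 (Ideal.relNorm (𝓞 K) (m * differentIdeal (𝓞 K) (𝓞 L))) →* Multiplicative k :=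
    { toFun := fun g => Multiplicative.ofAdd (c g)
      map_one' := by
        change Multiplicative.ofAdd (c 1) = 1
        rw [hc1]; rfl
      map_mul' := fun g h => congrArg Multiplicative.ofAdd (hc g h) }
  refine ⟨c', ?_, fun π hπ => hE π ((hg π).2 hπ)⟩
  intro h
  apply hgne
  have h1 : c' g = 1 := by rw [h]; rfl
  exact congrArg Multiplicative.toAdd h1

/-- For every nonzero ideal `N` of `𝓞 K` there is a finite set `S` of primes such that for every prime `p > 3` and every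
flat character `χ` of level `N` (of a quadratic extension `L` of `K`, with values in characteristic `p`): if `p ∉ S`, or
if `χ` is of CM type, there is a nonzero class `c` in `H¹(Γ₀(N), k)` with `T_π c = Tr (Ind χ (Frob π)) c` for all `π` not
dividing `p N`; so `T_π c = a_π(E) c` for every elliptic curve `E` with the same traces. -/
theorem result (K : Type) [Field K] [NumberField K] [IsTotallyComplex K] [IsPrincipalIdealRing (𝓞 K)]
    (hK : Module.finrank ℚ K = 2) (N : Ideal (𝓞 K)) (hN : N ≠ ⊥) :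
    ∃ S : Finset ℕ, ∀ p : ℕ, p.Prime → 3 < p →
      ∀ (k L : Type) [Field k] [CharP k p] [IsAlgClosed k] [Field L] [NumberField L] [Algebra K L],
        Module.finrank K L = 2 → ∀ τ : L ≃ₐ[K] L, τ ≠ 1 →
        ∀ (m : Ideal (𝓞 L)) (r₁ r₂ : 𝓞 L →+* k) (χ : Ideal (𝓞 L) →*₀ k), IsFlatCharacter N p r₁ r₂ m χ →
          (p ∉ S ∨ IsCMType τ r₁ r₂) →
          ∃ c : Gamma0 N →* Multiplicative k, c ≠ 1 ∧
            (∀ π : 𝓞 K, Good N p π → HeckeEigen N π c (traceInd χ π)) ∧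
            ∀ E : WeierstrassCurve (𝓞 K), E.Δ ≠ 0 →
              (∀ π : 𝓞 K, Good N p π → ¬ π ∣ E.Δ → traceInd χ π = (aE E π : k)) →
              ∀ π : 𝓞 K, Good N p π → ¬ π ∣ E.Δ → HeckeEigen N π c (aE E π : k) := by
  obtain ⟨S, hS⟩ := U5_exc K hK hN
  refine ⟨S, fun p hp hp3 k L _ _ _ _ _ _ hL τ hτ m r₁ r₂ χ hχ h => ?_⟩
  have hcm : IsCMType τ r₁ r₂ := by
    refine h.elim (fun h => ?_) id
    refine hS p hp hp3 h L hL τ hτ m hχ.level hχ.coprime k r₁ r₂ χ ⟨hχ.principal, fun π hπ => ?_⟩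
    rw [up, hχ.det π hπ]
    split_ifs <;> ring
  obtain ⟨c, hc1, hc2⟩ := cmcase K hK N hN p hp hp3 k L hL τ hτ m r₁ r₂ χ hχ hcm
  refine ⟨c, hc1, hc2, fun E _ h π hπ hd => ?_⟩
  rw [← h π hπ hd]
  exact hc2 π hπ

end Pool.Agent.Results.MP_3099cf_nt.DihedralCase
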